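import Mathlib

/-!
Independence of events depending on disjoint sets of coordinates of a product measure.
-/

open MeasureTheory ProbabilityTheory

namespace Pool.Agent.Lib.H98

variable {ι : Type*} {Ω : ι → Type*}

/-- The event `A` depends only on the coordinates in `S`. -/
def DepOn (A : Set (∀ i, Ω i)) (S : Set ι) : Prop :=
  ∀ ω ω' : ∀ i, Ω i, (∀ i ∈ S, ω i = ω' i) → ω ∈ A → ω' ∈ A

lemma DepOn.mono {A : Set (∀ i, Ω i)} {S T : Set ι} (h : DepOn A S) (hST : S ⊆ T) : DepOn A T :=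
  fun ω ω' hω hA => h ω ω' (fun i hi => hω i (hST hi)) hA

lemma DepOn.compl {A : Set (∀ i, Ω i)} {S : Set ι} (h : DepOn A S) : DepOn Aᶜ S :=
  fun ω ω' hω hA hA' => hA (h ω' ω (fun i hi => (hω i hi).symm) hA')

lemma DepOn.inter {A B : Set (∀ i, Ω i)} {S : Set ι} (hA : DepOn A S) (hB : DepOn B S) :
    DepOn (A ∩ B) S :=
  fun ω ω' hω h => ⟨hA ω ω' hω h.1, hB ω ω' hω h.2⟩

lemma DepOn.union {A B : Set (∀ i, Ω i)} {S : Set ι} (hA : DepOn A S) (hB : DepOn B S) :
    DepOn (A ∪ B) S :=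
  fun ω ω' hω h => h.imp (hA ω ω' hω) (hB ω ω' hω)

lemma DepOn.iInter {κ : Sort*} {A : κ → Set (∀ i, Ω i)} {S : Set ι} (hA : ∀ k, DepOn (A k) S) :
    DepOn (⋂ k, A k) S := fun ω ω' hω h => by
  rw [Set.mem_iInter] at h ⊢
  exact fun k => hA k ω ω' hω (h k)

lemma DepOn.iUnion {κ : Sort*} {A : κ → Set (∀ i, Ω i)} {S : Set ι} (hA : ∀ k, DepOn (A k) S) :
    DepOn (⋃ k, A k) S := fun ω ω' hω h => by
  rw [Set.mem_iUnion] at h ⊢
  exact h.imp fun k => hA k ω ω' hω

lemma depOn_univ (S : Set ι) : DepOn (Set.univ : Set (∀ i, Ω i)) S := fun _ _ _ _ => trivial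

lemma depOn_empty (S : Set ι) : DepOn (∅ : Set (∀ i, Ω i)) S := fun _ _ _ h => h

lemma DepOn.iff {A : Set (∀ i, Ω i)} {S : Set ι} (h : DepOn A S) {ω ω' : ∀ i, Ω i}
    (hω : ∀ i ∈ S, ω i = ω' i) : ω ∈ A ↔ ω' ∈ A :=
  ⟨h ω ω' hω, h ω' ω fun i hi => (hω i hi).symm⟩

variable [mΩ : ∀ i, MeasurableSpace (Ω i)]

lemma DepOn.measurableSet {A : Set (∀ i, Ω i)} (hA : MeasurableSet A) {S : Set ι}
    (h : DepOn A S) :
    MeasurableSet[⨆ i ∈ S, (mΩ i).comap (fun ω : ∀ i, Ω i => ω i)] A := by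
  classical
  rcases isEmpty_or_nonempty (∀ i, Ω i) with hE | ⟨⟨ω₀⟩⟩
  · rw [Set.eq_empty_of_isEmpty A]
    exact @MeasurableSet.empty _ (_)
  let ext : (∀ i : S, Ω i) → ∀ i, Ω i := fun x i => if hi : i ∈ S then x ⟨i, hi⟩ else ω₀ i
  have hext : Measurable ext := by
    refine measurable_pi_iff.2 fun i => ?_
    by_cases hi : i ∈ S
    · simp only [ext, hi, dif_pos]
      exact measurable_pi_apply (⟨i, hi⟩ : S)
    · simp only [ext, hi, dif_neg, not_false_eq_true]
      exact measurable_const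
  have hres : @Measurable (∀ i, Ω i) (∀ i : S, Ω i)
      (⨆ i ∈ S, (mΩ i).comap (fun ω : ∀ i, Ω i => ω i)) _ (fun ω i => ω i) := by
    refine @measurable_pi_iff _ _ _ (_) _ _ |>.2 fun i => ?_
    refine Measurable.mono (comap_measurable (fun ω : ∀ i, Ω i => ω i)) ?_ le_rfl
    exact le_iSup₂_of_le (i : ι) i.2 le_rfl
  have hA' : A = (fun (ω : ∀ i, Ω i) (i : S) => ω i) ⁻¹' (ext ⁻¹' A) := by
    ext ω
    refine h.iff fun i hi => ?_
    simp [ext, hi]
  rw [hA']
  exact hres (hext hA)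

/-- Events depending on disjoint sets of coordinates of an (infinite) product measure are
independent. -/
lemma measure_inter_of_depOn {μ : ∀ i, Measure (Ω i)} [∀ i, IsProbabilityMeasure (μ i)]
    {A B : Set (∀ i, Ω i)} (hA : MeasurableSet A) (hB : MeasurableSet B) {S T : Set ι}
    (hAS : DepOn A S) (hBT : DepOn B T) (hST : Disjoint S T) :
    Measure.infinitePi μ (A ∩ B) = Measure.infinitePi μ A * Measure.infinitePi μ B := by
  have h1 : iIndepFun (fun i (ω : ∀ i, Ω i) => ω i) (Measure.infinitePi μ) :=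
    iIndepFun_infinitePi (X := fun i (x : Ω i) => x) fun i => measurable_id
  have h2 := indep_iSup_of_disjoint (fun i => (measurable_pi_apply i).comap_le) h1.iIndep hST
  exact (Indep_iff _ _ _).1 h2 A B (hAS.measurableSet hA) (hBT.measurableSet hB)

lemma measureReal_inter_of_depOn {μ : ∀ i, Measure (Ω i)} [∀ i, IsProbabilityMeasure (μ i)]
    {A B : Set (∀ i, Ω i)} (hA : MeasurableSet A) (hB : MeasurableSet B) {S T : Set ι}
    (hAS : DepOn A S) (hBT : DepOn B T) (hST : Disjoint S T) :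
    (Measure.infinitePi μ).real (A ∩ B) =
      (Measure.infinitePi μ).real A * (Measure.infinitePi μ).real B := by
  simp only [Measure.real, measure_inter_of_depOn hA hB hAS hBT hST, ENNReal.toReal_mul]

/-- Independence of finitely many events depending on disjoint sets of coordinates. -/
lemma measureReal_biInter_of_depOn {μ : ∀ i, Measure (Ω i)} [∀ i, IsProbabilityMeasure (μ i)]
    {κ : Type*} (F : Finset κ) {A : κ → Set (∀ i, Ω i)} (hA : ∀ k, MeasurableSet (A k))
    {S : κ → Set ι} (hAS : ∀ k, DepOn (A k) (S k)) (hS : Pairwise fun k l => Disjoint (S k) (S l)) :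
    (Measure.infinitePi μ).real (⋂ k ∈ F, A k) = ∏ k ∈ F, (Measure.infinitePi μ).real (A k) := by
  classical
  induction F using Finset.induction_on with
  | empty => simp
  | insert a F ha ih =>
    rw [Finset.prod_insert ha, ← ih, Finset.set_biInter_insert]
    refine measureReal_inter_of_depOn (hA a) (Finset.measurableSet_biInter _ fun k _ => hA k)
      (hAS a) (T := ⋃ k ∈ F, S k) ?_ ?_
    · refine DepOn.iInter fun k => DepOn.iInter fun hk => (hAS k).mono ?_
      exact Set.subset_biUnion_of_mem (u := S) (Finset.mem_coe.2 hk)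
    · rw [Set.disjoint_iUnion₂_right]
      intro k hk
      exact hS (fun h => ha (h ▸ hk))

end Pool.Agent.Lib.H98
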